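import Pool.Agent.H.MP_8790d8_co.F

set_option autoImplicit false
set_option linter.unusedSectionVars false
open Finset Pool.Agent.H.MP_35cd17_co Pool.Agent.H.MP_8790d8_co

namespace Pool.Agent.H.MP_806cc9_co

open Classical

/-- Triangle `0,1,2`; vertex `3` adjacent to `0`; vertices `4,5` adjacent to `3` only. -/
def G6 : SimpleGraph (Fin 6) :=
  SimpleGraph.fromRel fun i j => (i, j) ∈ [(0, 1), (0, 2), (1, 2), (0, 3), (3, 4), (3, 5)]

def P6 (r M : ℝ) : ℝ :=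
  M ^ 6 + r * (M ^ 3 - M ^ 5) + r ^ 2 * (2 * M ^ 3 - 2 * M ^ 4) +
    r ^ 3 * (3 - 3 * M - M ^ 2 + M ^ 3) + r ^ 4 * (2 - 4 * M + 2 * M ^ 2)

variable {V : Type} [Fintype V] [DecidableEq V] {X : Type} [Fintype X] [Nonempty X]

theorem homog (G : SimpleGraph V) (hG : ∀ a, ∃ b, G.Adj a b) (w w' : Fin 4 → ℝ) (l : ℝ)
    (h : ∀ x, x ≠ 3 → w x = l * w' x) :
    tt G A4 univ w = l ^ Fintype.card V * tt G A4 univ w' := by
  rw [tt_univ, tt_univ, Finset.mul_sum]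
  refine Finset.sum_congr rfl fun φ _ => ?_
  unfold ind
  split_ifs with h1
  · have : ∀ v, w (φ v) = l * w' (φ v) := fun v => h _ fun hv => by
      obtain ⟨b, hb⟩ := hG v
      have := h1 v (mem_univ _) b (mem_univ _) hb
      rw [hv] at this
      unfold A4 at this
      simp at this
      omega
    simp only [this, Finset.prod_mul_distrib, Finset.prod_const, Finset.card_univ]
    ring
  · simp

theorem tt_mono (G : SimpleGraph V) (A B : X → X → Prop) (h : ∀ x y, A x y → B x y)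
    (w : X → ℝ) (hw : ∀ x, 0 ≤ w x) : tt G A univ w ≤ tt G B univ w := by
  rw [tt_univ, tt_univ]
  refine Finset.sum_le_sum fun φ _ => mul_le_mul_of_nonneg_right ?_
    (Finset.prod_nonneg fun _ _ => hw _)
  unfold ind
  by_cases h1 : ∀ a ∈ univ, ∀ b ∈ univ, G.Adj a b → A (φ a) (φ b)
  · rw [if_pos h1, if_pos fun a ha b hb hab => h _ _ (h1 a ha b hb hab)]
  · rw [if_neg h1]; split_ifs <;> norm_num

theorem tt_up (G : SimpleGraph V) (r M M' : ℝ) (h1 : 0 ≤ r) (h2 : r ≤ M) (h3 : M ≤ M')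
    (h4 : M' ≤ 1) : tt G A3 univ ![r, M - r, 1 - M] ≤ tt G A3 univ ![r, M' - r, 1 - M'] := by
  rw [← push_tt G A3 (![0, 1, 2, 2] : Fin 4 → Fin 3) ![r, M - r, M' - M, 1 - M'] _ (fun y => by
      fin_cases y <;> simp [Fin.sum_univ_four]),
    ← push_tt G A3 (![0, 1, 1, 2] : Fin 4 → Fin 3) ![r, M - r, M' - M, 1 - M'] _ (fun y => by
      fin_cases y <;> simp [Fin.sum_univ_four])]
  refine tt_mono G _ _ (by unfold A3 A4; decide) _ fun x => ?_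
  fin_cases x <;> simp <;> linarith

theorem tt6 (u M : ℝ) : tt G6 A3 univ ![u, M - u, 1 - M] = P6 u M := by
  let e : Fin 3 × Fin 3 × Fin 3 × Fin 3 × Fin 3 × Fin 3 ≃ (Fin 6 → Fin 3) :=
    { toFun := fun p => ![p.1, p.2.1, p.2.2.1, p.2.2.2.1, p.2.2.2.2.1, p.2.2.2.2.2]
      invFun := fun φ => (φ 0, φ 1, φ 2, φ 3, φ 4, φ 5)
      left_inv := fun _ => rfl
      right_inv := fun φ => by funext i; fin_cases i <;> rfl }
  set w : Fin 3 → ℝ := ![u, M - u, 1 - M] with hw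
  let a : Fin 3 → Fin 3 → ℝ := fun x y => if x.val + y.val ≤ 2 then 1 else 0
  have k : ∀ φ : Fin 6 → Fin 3, ind G6 A3 univ φ = a (φ 0) (φ 1) * a (φ 0) (φ 2) * a (φ 1) (φ 2) *
      a (φ 0) (φ 3) * a (φ 3) (φ 4) * a (φ 3) (φ 5) := fun φ => by
    simp only [a, ite_zero_mul_ite_zero, mul_one]
    unfold ind
    congr 1
    apply propext
    constructor
    · intro h
      have g := fun i j hij => h i (mem_univ _) j (mem_univ _) hij
      exact ⟨⟨⟨⟨⟨g 0 1 (by simp [G6]), g 0 2 (by simp [G6])⟩, g 1 2 (by simp [G6])⟩,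
        g 0 3 (by simp [G6])⟩, g 3 4 (by simp [G6])⟩, g 3 5 (by simp [G6])⟩
    · rintro ⟨⟨⟨⟨⟨h1, h2⟩, h3⟩, h4⟩, h5⟩, h6⟩ i _ j _ ⟨_, h⟩
      show (φ i).val + (φ j).val ≤ 2
      simp only [List.mem_cons, Prod.mk.injEq, List.not_mem_nil, or_false] at h
      rcases h with (h | h | h | h | h | h) | (h | h | h | h | h | h) <;>
        obtain ⟨rfl, rfl⟩ := h <;> omega
  have w0 : w 0 = u := rfl
  have w1 : w 1 = M - u := rfl
  have w2 : w 2 = 1 - M := rfl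
  have a00 : a 0 0 = 1 := if_pos (by decide)
  have a01 : a 0 1 = 1 := if_pos (by decide)
  have a02 : a 0 2 = 1 := if_pos (by decide)
  have a10 : a 1 0 = 1 := if_pos (by decide)
  have a11 : a 1 1 = 1 := if_pos (by decide)
  have a12 : a 1 2 = 0 := if_neg (by decide)
  have a20 : a 2 0 = 1 := if_pos (by decide)
  have a21 : a 2 1 = 0 := if_neg (by decide)
  have a22 : a 2 2 = 0 := if_neg (by decide)
  rw [tt_univ, ← e.sum_comp]
  have k2 : ∀ p, ind G6 A3 univ (e p) * ∏ v, w (e p v) =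
      a p.1 p.2.1 * a p.1 p.2.2.1 * a p.2.1 p.2.2.1 * a p.1 p.2.2.2.1 *
        a p.2.2.2.1 p.2.2.2.2.1 * a p.2.2.2.1 p.2.2.2.2.2 *
        (w p.1 * w p.2.1 * w p.2.2.1 * w p.2.2.2.1 * w p.2.2.2.2.1 * w p.2.2.2.2.2) := fun p => by
    rw [k, Fin.prod_univ_six]
    rfl
  simp only [k2, Fintype.sum_prod_type, Fin.sum_univ_three, w0, w1, w2, a00, a01, a02, a10, a11,
    a12, a20, a21, a22, mul_zero, zero_mul, mul_one, add_zero, one_mul]
  unfold P6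
  ring

theorem G6_nb : ∀ a, ∃ b, G6.Adj a b := by
  intro a
  fin_cases a
  exacts [⟨1, by simp [G6]⟩, ⟨0, by simp [G6]⟩, ⟨0, by simp [G6]⟩, ⟨0, by simp [G6]⟩,
    ⟨3, by simp [G6]⟩, ⟨3, by simp [G6]⟩]

theorem scale {β r M l : ℝ} (h : Adm β r M) (l0 : 0 ≤ l) (l1 : l ≤ 1) :
    ∃ r' M', Adm (l ^ 2 * β) r' M' ∧ l ^ 6 * P6 r M ≤ P6 r' M' := by
  obtain ⟨h1, h2, h3, h4⟩ := h
  obtain ⟨u', M', N', a1, a2, a3, a4, a5, a6⟩ := four G6
    (fun U => if U = univ then 1 else 0) (fun U => by split_ifs <;> norm_num)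
    (l * r) (l * M) (l * (1 - M)) (1 - l * M) (mul_nonneg l0 h1)
    (mul_le_mul_of_nonneg_left h2 l0) (mul_nonneg l0 (by linarith)) (by linarith)
  have b : N' = 1 - M' := by linarith
  refine ⟨u', M', ⟨a1, a2, by linarith, by rw [← b, a5, ← h4]; ring⟩, ?_⟩
  have c : FF G6 univ (l * r) (l * M) (l * (1 - M)) (1 - l * M) ≤ FF G6 univ u' M' N' N' := by
    simpa [Phi] using a6
  have d : FF G6 univ (l * r) (l * M) (l * (1 - M)) (1 - l * M) =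
      l ^ Fintype.card (Fin 6) * FF G6 univ r M (1 - M) (1 - M) :=
    homog G6 G6_nb _ _ l fun x hx => by
      fin_cases x
      · rfl
      · exact (mul_sub l M r).symm
      · rfl
      · exact absurd rfl hx
  rwa [d, FF3, FF3, b, tt6, tt6, Fintype.card_fin] at c

theorem mono {β β' r M : ℝ} (h : Adm β r M) (b1 : β ≤ β') (b2 : β' ≤ 1) :
    ∃ M', Adm β' r M' ∧ P6 r M ≤ P6 r M' := by
  obtain ⟨h1, h2, h3, h4⟩ := h
  have a1 : (M - r) ^ 2 ≤ β' - 2 * r + r ^ 2 := by linarith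
  have a2 : 0 ≤ β' - 2 * r + r ^ 2 := (sq_nonneg _).trans a1
  have a3 : M - r ≤ √(β' - 2 * r + r ^ 2) := Real.le_sqrt_of_sq_le a1
  have a4 : √(β' - 2 * r + r ^ 2) ≤ 1 - r :=
    Real.sqrt_le_iff.mpr ⟨by linarith, by linarith⟩
  have a5 := Real.sq_sqrt a2
  set y := √(β' - 2 * r + r ^ 2)
  refine ⟨r + y, ⟨h1, by linarith, by linarith, by linarith⟩, ?_⟩
  rw [← tt6, ← tt6]
  exact tt_up G6 r M (r + y) h1 h2 (by linarith) (by linarith)

theorem Kup {β β' : ℝ} (b0 : 0 < β) (b1 : β ≤ β')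
    (H : ∀ r M, Adm β r M → P6 r M ≤ √β ^ 6) (r M : ℝ) (h : Adm β' r M) : P6 r M ≤ √β' ^ 6 := by
  have s0 : 0 < √β := Real.sqrt_pos.mpr b0
  have s1 : √β ≤ √β' := Real.sqrt_le_sqrt b1
  have s2 : 0 < √β' := s0.trans_le s1
  obtain ⟨r', M', a1, a2⟩ := scale h (div_pos s0 s2).le ((div_le_one s2).mpr s1)
  rw [div_pow, Real.sq_sqrt b0.le, Real.sq_sqrt (by linarith),
    div_mul_cancel₀ _ (by linarith : 0 < β').ne'] at a1
  have a3 := a2.trans (H _ _ a1)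
  rw [div_pow, div_mul_eq_mul_div, div_le_iff₀ (by positivity)] at a3
  exact le_of_mul_le_mul_left a3 (by positivity)

theorem upper0 {β m : ℝ} (b0 : 0 < β) (b1 : β ≤ 1) (H : ∀ r M, Adm β r M → P6 r M ≤ m)
    (n : ℕ) [Nonempty (Fin n)] (A : Fin n → Fin n → Prop) (hs : ∀ x y, A x y → A y x)
    (hA : ee A (fun _ => mu (Fin n)) ≤ β) : tt G6 A univ (fun _ => mu (Fin n)) ≤ m := by
  have k : ∀ ε : ℝ, 0 < ε → √(β / (β + 4 * ε)) ^ 6 * (tt G6 A univ (fun _ => mu (Fin n)) -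
      (ε + (Fintype.card (Fin 6) : ℝ) ^ 2 * (2 * ε))) ≤ m := fun ε e0 => by
    obtain ⟨u, M, N, a1, a2, a3, a4, a5, a6⟩ := approx' G6 n A hs ε e0
    have b : N = 1 - M := by linarith
    rw [b] at a5 a6
    rw [FF3, tt6] at a6
    have hu : Adm (M ^ 2 + 2 * u * (1 - M)) u M := ⟨a1, a2, by linarith, rfl⟩
    have l1 : β / (β + 4 * ε) ≤ 1 := (div_le_one (by linarith)).mpr (by linarith)
    have l0 : 0 ≤ β / (β + 4 * ε) := by positivity
    obtain ⟨r', M', c1, c2⟩ := scale hu (Real.sqrt_nonneg (β / (β + 4 * ε)))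
      (Real.sqrt_le_one.mpr l1)
    obtain ⟨M'', c3, c4⟩ := mono (β' := β) c1 (by
      rw [Real.sq_sqrt l0, div_mul_eq_mul_div, div_le_iff₀ (by linarith)]
      exact mul_le_mul_of_nonneg_left (by linarith [(abs_le.mp a5).2]) b0.le) b1
    refine le_trans (mul_le_mul_of_nonneg_left (by linarith) (by positivity))
      (c2.trans (c4.trans (H _ _ c3)))
  have c : ContinuousAt (fun ε : ℝ => √(β / (β + 4 * ε)) ^ 6 *
      (tt G6 A univ (fun _ => mu (Fin n)) -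
        (ε + (Fintype.card (Fin 6) : ℝ) ^ 2 * (2 * ε)))) 0 := by
    fun_prop (disch := simp [b0.ne'])
  have d := le_of_tendsto (c.tendsto.mono_left (nhdsWithin_le_nhds (s := Set.Ioi 0)))
    (eventually_nhdsWithin_of_forall fun ε e0 => k ε e0)
  simpa [b0.ne'] using d

noncomputable def f6 (β q : ℝ) : ℝ := P6 (rq β q) (Mq β q)

theorem P6_cont : Continuous fun z : ℝ × ℝ => P6 z.1 z.2 := by
  unfold P6; fun_prop

theorem f6_cont (β : ℝ) : Continuous (f6 β) := by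
  unfold f6 P6 rq Mq; fun_prop

theorem P60 (x : ℝ) : P6 0 x = x ^ 6 := by unfold P6; ring

theorem f61 (β : ℝ) : f6 β 1 = √β ^ 6 := by simp [f6, rq, Mq, P60]

theorem iff_adm {β : ℝ} (hβ : β ∈ Set.Icc (0 : ℝ) 1) (m : ℝ) :
    (∀ q ∈ Set.Icc (0 : ℝ) 1, f6 β q ≤ m) ↔ ∀ r M, Adm β r M → P6 r M ≤ m := by
  constructor
  · intro h r M hA
    obtain ⟨q, hq, rfl, rfl⟩ := param hA
    exact h q hq
  · intro h q hq
    exact h _ _ (adm_q hβ hq)

def QQ (r M : ℝ) : ℝ := M ^ 3 * (1 - M) * (1 - 5 * M) + r * (-12 * M ^ 2 + 26 * M ^ 3 - 14 * M ^ 4) +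
  r ^ 2 * (-5 + 21 * M - 25 * M ^ 2 + 9 * M ^ 3) + r ^ 3 * (2 - 4 * M + 2 * M ^ 2)

theorem PQ {β r M : ℝ} (h : Adm β r M) : P6 r M = √β ^ 6 + r * QQ r M := by
  rw [show √β ^ 6 = (√β ^ 2) ^ 3 by ring, Real.sq_sqrt (adm_le h).1, ← h.2.2.2]
  unfold P6 QQ
  ring

theorem rq_pos {β q : ℝ} (b0 : 0 < β) (q0 : 0 ≤ q) (q1 : q < 1) : 0 < rq β q := by
  have : q ^ 2 < 1 := pow_lt_one₀ q0 q1 two_ne_zero
  have := mul_pos b0 (sub_pos.mpr this)
  unfold rq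
  rw [sub_pos, Real.sqrt_lt' one_pos]
  linarith

theorem crit {r M : ℝ} (h : Adm (1 / 25) r M) (r0 : 0 < r) : QQ r M < 0 := by
  obtain ⟨_, h2, h3, h4⟩ := h
  have M0 : 0 < M := by linarith
  have M1 : M < 1 := lt_of_le_of_ne h3 fun h => by rw [h] at h4; norm_num at h4
  have p := mul_pos r0 (sub_pos.mpr M1)
  have M2 : M < 1 / 5 := by nlinarith
  have z : 2 * r * (1 - M) = 1 / 25 - M ^ 2 := by linarith
  have e : 8 * (1 - M) ^ 3 * QQ r M = 8 * (1 - M) ^ 3 * (M ^ 3 * (1 - M) * (1 - 5 * M)) +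
      4 * (1 - M) ^ 2 * (2 * r * (1 - M)) * (-12 * M ^ 2 + 26 * M ^ 3 - 14 * M ^ 4) +
      2 * (1 - M) * (2 * r * (1 - M)) ^ 2 * (-5 + 21 * M - 25 * M ^ 2 + 9 * M ^ 3) +
      (2 * r * (1 - M)) ^ 3 * (2 - 4 * M + 2 * M ^ 2) := by unfold QQ; ring
  rw [z] at e
  have w : 0 < 248 / 3125 + 192 / 3125 * M + M ^ 2 * (3972 / 625 - 2752 / 125 * M) +
      M ^ 4 * (768 / 25 - 96 / 5 * M) + 4 * M ^ 6 := by
    have a : 0 < 3972 / 625 - 2752 / 125 * M := by linarith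
    have b : 0 < 768 / 25 - 96 / 5 * M := by linarith
    positivity
  have w2 := mul_pos (mul_pos (sub_pos.mpr M2) (sub_pos.mpr M1)) w
  have w3 : 8 * (1 - M) ^ 3 * QQ r M < 0 := by linarith
  exact neg_of_mul_neg_right w3 (by have := sub_pos.mpr M1; positivity)

theorem atc {q : ℝ} (q0 : 0 ≤ q) (q1 : q < 1) : f6 (1 / 25) q < f6 (1 / 25) 1 := by
  have h := adm_q (β := 1 / 25) (q := q) (by constructor <;> norm_num) ⟨q0, q1.le⟩
  have r0 := rq_pos (β := 1 / 25) (by norm_num) q0 q1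
  rw [f61]
  unfold f6
  rw [PQ h]
  linarith [mul_neg_of_pos_of_neg r0 (crit h r0)]

theorem above {β : ℝ} (b0 : 1 / 25 ≤ β) (b1 : β ≤ 1) :
    ∀ q ∈ Set.Icc (0 : ℝ) 1, f6 β q ≤ f6 β 1 := by
  rw [iff_adm ⟨by linarith, b1⟩, f61]
  refine Kup (by norm_num) b0 ?_
  rw [← f61, ← iff_adm (by constructor <;> norm_num)]
  intro q hq
  rcases eq_or_lt_of_le hq.2 with h | h
  · rw [h]
  · exact (atc hq.1 h).le

theorem below {β : ℝ} (b0 : 0 < β) (b1 : β < 1 / 25) :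
    ∃ q ∈ Set.Icc (0 : ℝ) 1, f6 β 1 < f6 β q := by
  have e0 : 0 < √β := Real.sqrt_pos.mpr b0
  have e1 : √β < 1 / 5 := (Real.sqrt_lt' (by norm_num)).mpr (by linarith)
  have c : Continuous fun q => QQ (rq β q) (Mq β q) := by
    unfold QQ rq Mq; fun_prop
  have p : 0 < QQ (rq β 1) (Mq β 1) := by
    have a : 0 < 1 - √β := by linarith
    have b : 0 < 1 - 5 * √β := by linarith
    simp only [QQ, rq, Mq, one_pow, sub_self, mul_zero, sub_zero, Real.sqrt_one, zero_add, mul_one,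
      zero_mul, add_zero, ne_eq, OfNat.ofNat_ne_zero, not_false_eq_true, zero_pow]
    positivity
  have ev := ((c.tendsto 1).eventually (lt_mem_nhds p)).filter_mono
    (nhdsWithin_le_nhds (s := Set.Iio 1))
  obtain ⟨q, h1, h2⟩ := (ev.and (Ioo_mem_nhdsLT (zero_lt_one' ℝ))).exists
  refine ⟨q, ⟨h2.1.le, h2.2.le⟩, ?_⟩
  rw [f61]
  unfold f6
  rw [PQ (adm_q ⟨b0.le, by linarith⟩ ⟨h2.1.le, h2.2.le⟩)]
  linarith [mul_pos (rq_pos b0 h2.1.le h2.2) h1]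

theorem starK {β : ℝ} (b0 : 0 < β) (b1 : β < 1 / 25) : f6 β 0 < f6 β 1 := by
  have h := adm_q (β := β) (q := 0) ⟨b0.le, by linarith⟩ ⟨le_rfl, zero_le_one⟩
  have r0 := rq_pos b0 le_rfl zero_lt_one
  have e : Mq β 0 = rq β 0 := by simp [Mq, rq]
  rw [f61]
  unfold f6
  rw [PQ h]
  rw [e] at *
  generalize rq β 0 = s at *
  obtain ⟨_, _, h3, h4⟩ := h
  have s1 : s ≤ 1 / 25 := by nlinarith
  have : QQ s s = s ^ 2 * (-5 + s * (12 - 9 * s + 2 * s ^ 2)) := by unfold QQ; ring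
  have a : -5 + s * (12 - 9 * s + 2 * s ^ 2) < 0 := by nlinarith
  rw [this]
  linarith [mul_neg_of_pos_of_neg r0 (mul_neg_of_pos_of_neg (pow_pos r0 2) a)]

theorem inner {β : ℝ} (b0 : 0 < β) (b1 : β < 1 / 25) :
    ∃ t ∈ Set.Ioo (0 : ℝ) 1, ∀ q ∈ Set.Icc (0 : ℝ) 1, f6 β q ≤ f6 β t := by
  obtain ⟨t, ht, hm⟩ := isCompact_Icc.exists_isMaxOn (s := Set.Icc (0 : ℝ) 1) (f := f6 β)
    ⟨0, le_rfl, zero_le_one⟩ (f6_cont β).continuousOn
  obtain ⟨q, hq, h⟩ := below b0 b1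
  have a : f6 β 1 < f6 β t := h.trans_le (hm hq)
  have b := (starK b0 b1).trans a
  exact ⟨t, ⟨lt_of_le_of_ne ht.1 fun h => b.ne (by rw [h]),
    lt_of_le_of_ne ht.2 fun h => a.ne (by rw [h])⟩, fun q hq => hm hq⟩

end Pool.Agent.H.MP_806cc9_co
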